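import Mathlib

set_option autoImplicit false

namespace Pool.Agent.X272.VC

open MvPowerSeries

/-- two variable power series over the rationals -/
abbrev PA : Type := MvPowerSeries (Fin 2) ℚ
/-- one variable power series over the rationals -/
abbrev PB : Type := MvPowerSeries Unit ℚ

/-- The ring of pairs `(f, g)` of a series in two variables and a series in one variable
having the same constant coefficient. -/
noncomputable def RR : Subring (PA × PB) :=
  RingHom.eqLocus
    ((MvPowerSeries.constantCoeff (σ := Fin 2) (R := ℚ)).comp (RingHom.fst PA PB))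
    ((MvPowerSeries.constantCoeff (σ := Unit) (R := ℚ)).comp (RingHom.snd PA PB))

theorem mem_RR {x : PA × PB} :
    x ∈ RR ↔ MvPowerSeries.constantCoeff x.1 = MvPowerSeries.constantCoeff x.2 := Iff.rfl

/-- first projection -/
noncomputable def pA : RR →+* PA := (RingHom.fst PA PB).comp RR.subtype
/-- second projection -/
noncomputable def pB : RR →+* PB := (RingHom.snd PA PB).comp RR.subtype
/-- residue map -/
noncomputable def eps : RR →+* ℚ := (MvPowerSeries.constantCoeff (σ := Fin 2) (R := ℚ)).comp pA

theorem pA_apply (x : RR) : pA x = x.1.1 := rfl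
theorem pB_apply (x : RR) : pB x = x.1.2 := rfl
theorem eps_apply (x : RR) : eps x = MvPowerSeries.constantCoeff (pA x) := rfl
theorem eps_apply' (x : RR) : eps x = MvPowerSeries.constantCoeff (pB x) := x.2

theorem ext' {x y : RR} (h1 : pA x = pA y) (h2 : pB x = pB y) : x = y :=
  Subtype.ext (Prod.ext h1 h2)

/-- build an element of the ring -/
noncomputable def mk' (f : PA) (g : PB) (h : MvPowerSeries.constantCoeff f = MvPowerSeries.constantCoeff g) :
    RR := ⟨(f, g), h⟩

@[simp] theorem pA_mk' (f : PA) (g : PB) (h) : pA (mk' f g h) = f := rfl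
@[simp] theorem pB_mk' (f : PA) (g : PB) (h) : pB (mk' f g h) = g := rfl

theorem pA_surj : Function.Surjective pA := fun f =>
  ⟨mk' f (MvPowerSeries.C (MvPowerSeries.constantCoeff f)) (by simp), rfl⟩
theorem pB_surj : Function.Surjective pB := fun g =>
  ⟨mk' (MvPowerSeries.C (MvPowerSeries.constantCoeff g)) g (by simp), rfl⟩
theorem eps_surj : Function.Surjective eps := by
  intro c
  obtain ⟨x, hx⟩ := pA_surj (MvPowerSeries.C c)
  refine ⟨x, ?_⟩
  rw [eps_apply, hx, MvPowerSeries.constantCoeff_C]

theorem isUnit_iff (x : RR) : IsUnit x ↔ IsUnit (eps x) := by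
  constructor
  · exact fun h => h.map eps
  · intro h
    have h1 : IsUnit (pA x) := MvPowerSeries.isUnit_iff_constantCoeff.2 h
    have h2 : IsUnit (pB x) := MvPowerSeries.isUnit_iff_constantCoeff.2 (eps_apply' x ▸ h)
    obtain ⟨f, hf⟩ := h1.exists_right_inv
    obtain ⟨g, hg⟩ := h2.exists_right_inv
    have hf' := congrArg (MvPowerSeries.constantCoeff (σ := Fin 2) (R := ℚ)) hf
    have hg' := congrArg (MvPowerSeries.constantCoeff (σ := Unit) (R := ℚ)) hg
    rw [map_mul, map_one] at hf' hg'
    rw [← eps_apply] at hf'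
    rw [← eps_apply'] at hg'
    have hfg : MvPowerSeries.constantCoeff f = MvPowerSeries.constantCoeff g := by
      apply h.mul_left_cancel
      rw [hf', hg']
    refine IsUnit.of_mul_eq_one (mk' f g hfg) (ext' ?_ ?_)
    · rw [map_mul, pA_mk', hf, map_one]
    · rw [map_mul, pB_mk', hg, map_one]

instance : IsLocalHom eps := ⟨fun x h => (isUnit_iff x).2 h⟩

instance instLocal : IsLocalRing RR := RingHom.domain_isLocalRing eps

theorem mem_max {x : RR} : x ∈ IsLocalRing.maximalIdeal RR ↔ eps x = 0 := by
  rw [IsLocalRing.mem_maximalIdeal, mem_nonunits_iff, isUnit_iff, isUnit_iff_ne_zero, not_not]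

theorem isNoeth_of_surj {R A : Type*} [CommRing R] [CommRing A] [Algebra R A]
    (h : Function.Surjective (algebraMap R A)) [IsNoetherianRing A] : IsNoetherian R A := by
  have : RingHomSurjective (algebraMap R A) := ⟨h⟩
  let f : A →ₛₗ[algebraMap R A] A := ⟨AddHom.id A, by intro r x; simp [Algebra.smul_def]⟩
  rw [isNoetherian_iff']
  exact (Submodule.orderIsoMapComapOfBijective f
    Function.bijective_id).toOrderEmbedding.wellFoundedGT

instance instNoeth : IsNoetherianRing RR := by
  let _ := pA.toAlgebra
  let _ := pB.toAlgebra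
  have : IsNoetherian RR PA := isNoeth_of_surj pA_surj
  have : IsNoetherian RR PB := isNoeth_of_surj pB_surj
  let f : RR →ₗ[RR] PA × PB := LinearMap.prod (Algebra.linearMap RR PA) (Algebra.linearMap RR PB)
  refine isNoetherian_of_injective f ?_
  intro x y h
  exact ext' (congrArg Prod.fst h) (congrArg Prod.snd h)

end Pool.Agent.X272.VC
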