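import Mathlib
import Pool.Agent.X272.VC.Ring

set_option autoImplicit false

namespace Pool.Agent.X272.VC

open MvPowerSeries

section gen
variable {σ : Type} 

theorem order_X' (s : σ) : (X s : MvPowerSeries σ ℚ).order = 1 := by
  have h := MvPowerSeries.order_monomial_of_ne_zero (d := Finsupp.single s 1)
    (one_ne_zero (α := ℚ))
  rw [Finsupp.degree_single] at h
  simpa [MvPowerSeries.X] using h

theorem cofactor_order {s : σ} {g : MvPowerSeries σ ℚ} {n : ℕ}
    (h : ((n + 1 : ℕ) : ℕ∞) ≤ (X s * g).order) : (n : ℕ∞) ≤ g.order := by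
  rw [MvPowerSeries.order_mul, order_X'] at h
  generalize g.order = o at h ⊢
  cases o with
  | top => exact le_top
  | coe m =>
    have h' : ((n + 1 : ℕ) : ℕ∞) ≤ ((1 + m : ℕ) : ℕ∞) := by simpa using h
    rw [Nat.cast_le] at h' ⊢
    omega

theorem le_order_add {f g : MvPowerSeries σ ℚ} {n : ℕ∞} (hf : n ≤ f.order) (hg : n ≤ g.order) :
    n ≤ (f + g).order := le_trans (le_min hf hg) MvPowerSeries.min_order_le_add

theorem le_order_sum {ι : Type*} (s : Finset ι) (f : ι → MvPowerSeries σ ℚ) {n : ℕ∞}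
    (hf : ∀ i ∈ s, n ≤ (f i).order) : n ≤ (∑ i ∈ s, f i).order := by
  classical
  induction s using Finset.induction_on with
  | empty => simp
  | insert a s ha ih =>
    rw [Finset.sum_insert ha]
    exact le_order_add (hf a (Finset.mem_insert_self a s))
      (ih fun i hi => hf i (Finset.mem_insert_of_mem hi))

end gen

theorem decA {f : PA} {n : ℕ} (hf : ((n + 1 : ℕ) : ℕ∞) ≤ f.order) :
    ∃ g0 g1 : PA, (n : ℕ∞) ≤ g0.order ∧ (n : ℕ∞) ≤ g1.order ∧ f = X 0 * g0 + X 1 * g1 := by
  classical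
  let f0 : PA := fun m => if m 0 = 0 then 0 else coeff m f
  let f1 : PA := fun m => if m 0 = 0 then coeff m f else 0
  have c0 : ∀ m, coeff m f0 = if m 0 = 0 then 0 else coeff m f := fun m => rfl
  have c1 : ∀ m, coeff m f1 = if m 0 = 0 then coeff m f else 0 := fun m => rfl
  have hsum : f = f0 + f1 := by
    ext m
    rw [map_add, c0, c1]
    split_ifs <;> simp
  have d0 : X 0 ∣ f0 := by
    rw [X_dvd_iff]
    intro m hm
    rw [c0, if_pos hm]
  have d1 : X 1 ∣ f1 := by
    rw [X_dvd_iff]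
    intro m hm
    rw [c1]
    split_ifs with h
    · have : m = 0 := by
        ext i
        fin_cases i
        · exact h
        · exact hm
      apply MvPowerSeries.coeff_of_lt_order
      refine lt_of_lt_of_le ?_ hf
      rw [this]
      simp
    · rfl
  obtain ⟨g0, hg0⟩ := d0
  obtain ⟨g1, hg1⟩ := d1
  refine ⟨g0, g1, ?_, ?_, ?_⟩
  · apply cofactor_order (s := 0)
    rw [← hg0]
    apply le_trans hf
    apply MvPowerSeries.le_order
    intro d hd
    rw [c0]
    split_ifs
    · rfl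
    · exact MvPowerSeries.coeff_of_lt_order hd
  · apply cofactor_order (s := 1)
    rw [← hg1]
    apply le_trans hf
    apply MvPowerSeries.le_order
    intro d hd
    rw [c1]
    split_ifs
    · exact MvPowerSeries.coeff_of_lt_order hd
    · rfl
  · rw [← hg0, ← hg1, ← hsum]

theorem decB {f : PB} {n : ℕ} (hf : ((n + 1 : ℕ) : ℕ∞) ≤ f.order) :
    ∃ g : PB, (n : ℕ∞) ≤ g.order ∧ f = X () * g := by
  have d : X () ∣ f := by
    rw [X_dvd_iff]
    intro m hm
    have : m = 0 := by
      ext i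
      exact hm
    apply MvPowerSeries.coeff_of_lt_order
    refine lt_of_lt_of_le ?_ hf
    rw [this]
    simp
  obtain ⟨g, hg⟩ := d
  refine ⟨g, ?_, hg⟩
  apply cofactor_order (s := ())
  rw [← hg]
  exact hf

/-- the ideal of pairs of order at least `n` -/
noncomputable def F (n : ℕ) : Ideal RR where
  carrier := {x | (n : ℕ∞) ≤ (pA x).order ∧ (n : ℕ∞) ≤ (pB x).order}
  add_mem' := by
    intro a b ha hb
    refine ⟨?_, ?_⟩
    · rw [map_add]
      exact le_order_add ha.1 hb.1
    · rw [map_add]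
      exact le_order_add ha.2 hb.2
  zero_mem' := by
    refine ⟨?_, ?_⟩
    · rw [map_zero, MvPowerSeries.order_zero]
      exact le_top
    · rw [map_zero, MvPowerSeries.order_zero]
      exact le_top
  smul_mem' := by
    intro c x hx
    refine ⟨?_, ?_⟩
    · rw [smul_eq_mul, map_mul, MvPowerSeries.order_mul]
      exact le_trans hx.1 le_add_self
    · rw [smul_eq_mul, map_mul, MvPowerSeries.order_mul]
      exact le_trans hx.2 le_add_self

theorem mem_F {n : ℕ} {x : RR} :
    x ∈ F n ↔ (n : ℕ∞) ≤ (pA x).order ∧ (n : ℕ∞) ≤ (pB x).order := Iff.rfl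

theorem F_zero : F 0 = ⊤ := by
  ext x
  simp [mem_F]

theorem max_eq : IsLocalRing.maximalIdeal RR = F 1 := by
  ext x
  rw [mem_max, mem_F, Nat.cast_one, MvPowerSeries.one_le_order_iff_constCoeff_eq_zero,
    MvPowerSeries.one_le_order_iff_constCoeff_eq_zero, ← eps_apply, ← eps_apply', and_self]

theorem F_mul_mem {a b : ℕ} {x y : RR} (hx : x ∈ F a) (hy : y ∈ F b) : x * y ∈ F (a + b) := by
  rw [mem_F] at *
  rw [map_mul, map_mul, MvPowerSeries.order_mul, MvPowerSeries.order_mul, Nat.cast_add]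
  exact ⟨add_le_add hx.1 hy.1, add_le_add hx.2 hy.2⟩

theorem F_anti {a b : ℕ} (h : a ≤ b) : F b ≤ F a := by
  intro x hx
  rw [mem_F] at *
  have : (a : ℕ∞) ≤ b := by exact_mod_cast h
  exact ⟨this.trans hx.1, this.trans hx.2⟩

/-- lift of a two variable series -/
noncomputable def lA (f : PA) : RR :=
  mk' f (MvPowerSeries.C (MvPowerSeries.constantCoeff f)) (by simp)
/-- lift of a one variable series -/
noncomputable def lB (g : PB) : RR :=
  mk' (MvPowerSeries.C (MvPowerSeries.constantCoeff g)) g (by simp)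

theorem order_C_ge {σ τ : Type} {f : MvPowerSeries σ ℚ} {n : ℕ} (h : (n : ℕ∞) ≤ f.order) :
    (n : ℕ∞) ≤ (MvPowerSeries.C (σ := τ) (MvPowerSeries.constantCoeff f)).order := by
  rcases Nat.eq_zero_or_pos n with rfl | hn
  · simp
  · have : MvPowerSeries.constantCoeff f = 0 := by
      rw [← MvPowerSeries.one_le_order_iff_constCoeff_eq_zero]
      refine le_trans ?_ h
      exact_mod_cast hn
    rw [this, map_zero, MvPowerSeries.order_zero]
    exact le_top

theorem lA_mem {f : PA} {n : ℕ} (h : (n : ℕ∞) ≤ f.order) : lA f ∈ F n :=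
  ⟨h, order_C_ge h⟩
theorem lB_mem {f : PB} {n : ℕ} (h : (n : ℕ∞) ≤ f.order) : lB f ∈ F n :=
  ⟨order_C_ge h, h⟩

/-- the three generators of the maximal ideal -/
noncomputable def y0 : RR := mk' (X 0) 0 (by simp)
/-- the three generators of the maximal ideal -/
noncomputable def y1 : RR := mk' (X 1) 0 (by simp)
/-- the three generators of the maximal ideal -/
noncomputable def xx : RR := mk' 0 (X ()) (by simp)

theorem y0_mem : y0 ∈ F 1 := by
  rw [mem_F]
  refine ⟨?_, ?_⟩
  · change _ ≤ (X 0 : PA).order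
    rw [order_X']; simp
  · change _ ≤ (0 : PB).order
    simp
theorem y1_mem : y1 ∈ F 1 := by
  rw [mem_F]
  refine ⟨?_, ?_⟩
  · change _ ≤ (X 1 : PA).order
    rw [order_X']; simp
  · change _ ≤ (0 : PB).order
    simp
theorem xx_mem : xx ∈ F 1 := by
  rw [mem_F]
  refine ⟨?_, ?_⟩
  · change _ ≤ (0 : PA).order
    simp
  · change _ ≤ (X () : PB).order
    rw [order_X']; simp

theorem dec {x : RR} {n : ℕ} (hx : x ∈ F (n + 1)) :
    ∃ a b c : RR, a ∈ F n ∧ b ∈ F n ∧ c ∈ F n ∧ x = y0 * a + y1 * b + xx * c := by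
  rw [mem_F] at hx
  obtain ⟨g0, g1, h0, h1, h⟩ := decA hx.1
  obtain ⟨g, hg, h'⟩ := decB hx.2
  refine ⟨lA g0, lA g1, lB g, lA_mem h0, lA_mem h1, lB_mem hg, ext' ?_ ?_⟩
  · rw [map_add, map_add, map_mul, map_mul, map_mul, h]
    change X 0 * g0 + X 1 * g1 = X 0 * g0 + X 1 * g1 + 0 * _
    ring
  · rw [map_add, map_add, map_mul, map_mul, map_mul, h']
    change X () * g = 0 * _ + 0 * _ + X () * g
    ring

theorem F_pow (n : ℕ) : (F 1) ^ n = F n := by
  induction n with
  | zero => rw [pow_zero, F_zero, Ideal.one_eq_top]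
  | succ n ih =>
    apply le_antisymm
    · rw [pow_succ, ih, Ideal.mul_le]
      intro a ha b hb
      exact F_mul_mem ha hb
    · intro x hx
      obtain ⟨a, b, c, ha, hb, hc, rfl⟩ := dec hx
      rw [pow_succ', ih]
      exact add_mem (add_mem (Ideal.mul_mem_mul y0_mem ha) (Ideal.mul_mem_mul y1_mem hb))
        (Ideal.mul_mem_mul xx_mem hc)

end Pool.Agent.X272.VC
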