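import Mathlib
import Pool.Agent.X272.VC.Filt

set_option autoImplicit false

namespace Pool.Agent.X272.VC

open MvPowerSeries

theorem order_pow' {σ : Type} (f : MvPowerSeries σ ℚ) {v : ℕ} (hv : f.order = (v : ℕ∞)) (k : ℕ) :
    (f ^ k).order = ((v * k : ℕ) : ℕ∞) := by
  induction k with
  | zero =>
    rw [pow_zero, Nat.mul_zero, Nat.cast_zero]
    by_contra h
    have h' := MvPowerSeries.order_ne_zero_iff_constCoeff_eq_zero.1 h
    rw [map_one] at h'
    exact one_ne_zero h'
  | succ k ih =>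
    rw [pow_succ, MvPowerSeries.order_mul, ih, hv, Nat.mul_succ, Nat.cast_add]

theorem order_of_integral {σ : Type} {x : MvPowerSeries σ ℚ} {n k : ℕ}
    {a : ℕ → MvPowerSeries σ ℚ} (ha : ∀ j, ((n * j : ℕ) : ℕ∞) ≤ (a j).order)
    (h : x ^ k + ∑ j ∈ Finset.range k, a (k - j) * x ^ j = 0) : (n : ℕ∞) ≤ x.order := by
  by_contra hlt
  rw [not_le] at hlt
  have hne : x.order ≠ ⊤ := ne_top_of_lt hlt
  obtain ⟨v, hv⟩ := ENat.ne_top_iff_exists.1 hne
  have hvn : v < n := by
    rw [← hv] at hlt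
    exact_mod_cast hlt
  have h1 : x ^ k = - ∑ j ∈ Finset.range k, a (k - j) * x ^ j := eq_neg_of_add_eq_zero_left h
  have h2 : ((v * k + 1 : ℕ) : ℕ∞) ≤ (x ^ k).order := by
    rw [h1, MvPowerSeries.order_neg]
    apply le_order_sum
    intro j hj
    rw [Finset.mem_range] at hj
    rw [MvPowerSeries.order_mul, order_pow' x hv.symm]
    refine le_trans ?_ (add_le_add_left (ha (k - j)) _)
    rw [← Nat.cast_add, Nat.cast_le]
    obtain ⟨i, rfl⟩ : ∃ i, k = j + (i + 1) := ⟨k - j - 1, by omega⟩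
    have : j + (i + 1) - j = i + 1 := by omega
    rw [this]
    have hvn' : v + 1 ≤ n := hvn
    calc v * (j + (i + 1)) + 1 ≤ (v + 1) * (i + 1) + v * j := by nlinarith
      _ ≤ n * (i + 1) + v * j := by gcongr
  rw [order_pow' x hv.symm, Nat.cast_le] at h2
  omega

theorem F_iff (n : ℕ) (x : RR) : x ∈ F n ↔
          ∃ k : ℕ, 0 < k ∧ ∃ a : ℕ → RR, (∀ j, a j ∈ ((F 1) ^ n) ^ j) ∧
            x ^ k + ∑ j ∈ Finset.range k, a (k - j) * x ^ j = 0 := by
  constructor
  · intro hx
    refine ⟨1, one_pos, fun j => if j = 1 then -x else 0, ?_, ?_⟩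
    · intro j
      dsimp only
      split_ifs with hj
      · rw [hj, pow_one, F_pow]
        exact neg_mem hx
      · exact zero_mem _
    · simp
  · rintro ⟨k, hk, a, ha, hx⟩
    have ha' : ∀ j, a j ∈ F (n * j) := by
      intro j
      have := ha j
      rwa [← pow_mul, F_pow] at this
    refine ⟨?_, ?_⟩
    · refine order_of_integral (k := k) (a := fun j => pA (a j)) (fun j => (ha' j).1) ?_
      have := congrArg pA hx
      rw [map_add, map_pow, map_sum, map_zero] at this
      simpa only [map_mul, map_pow] using this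
    · refine order_of_integral (k := k) (a := fun j => pB (a j)) (fun j => (ha' j).2) ?_
      have := congrArg pB hx
      rw [map_add, map_pow, map_sum, map_zero] at this
      simpa only [map_mul, map_pow] using this

theorem F_of_sq {x : RR} {n : ℕ} (h : x * x ∈ F (2 * n)) : x ∈ F n := by
  rw [mem_F] at *
  rw [map_mul, map_mul, MvPowerSeries.order_mul, MvPowerSeries.order_mul] at h
  have key : ∀ o : ℕ∞, ((2 * n : ℕ) : ℕ∞) ≤ o + o → (n : ℕ∞) ≤ o := by
    intro o ho
    cases o with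
    | top => exact le_top
    | coe m =>
      rw [← Nat.cast_add, Nat.cast_le] at ho
      rw [Nat.cast_le]
      omega
  exact ⟨key _ h.1, key _ h.2⟩

theorem adic_reduced : IsReduced (AdicCompletion (IsLocalRing.maximalIdeal RR) RR) := by
  rw [isReduced_iff_pow_one_lt 2 one_lt_two]
  intro x hx
  obtain ⟨f, rfl⟩ := AdicCompletion.mk_surjective _ _ x
  apply AdicCompletion.ext_evalₐ
  intro n
  have h1 := congrArg (AdicCompletion.evalₐ (IsLocalRing.maximalIdeal RR) (2 * n)) hx
  have hm : ∀ n, (IsLocalRing.maximalIdeal RR) ^ n = F n := fun n => by rw [max_eq, F_pow]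
  rw [map_pow, AdicCompletion.evalₐ_mk, map_zero, ← map_pow, Ideal.Quotient.eq_zero_iff_mem,
    hm, sq] at h1
  have h2 := F_of_sq h1
  have h3 := AdicCompletion.Ideal.mk_eq_mk (IsLocalRing.maximalIdeal RR)
    (show n ≤ 2 * n by omega) f
  rw [AdicCompletion.evalₐ_mk, map_zero]
  refine h3.symm.trans ?_
  rw [Ideal.Quotient.eq_zero_iff_mem, hm]
  exact h2

end Pool.Agent.X272.VC
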