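import Mathlib
import Pool.Agent.X272.VC.Filt

set_option autoImplicit false

namespace Pool.Agent.X272.VC

open MvPowerSeries

theorem y0xx : y0 * xx = 0 := by
  refine ext' ?_ ?_
  · rw [map_mul, map_zero]
    change X 0 * 0 = (0 : PA)
    rw [mul_zero]
  · rw [map_mul, map_zero]
    change 0 * X () = (0 : PB)
    rw [zero_mul]

theorem height_le_two : (IsLocalRing.maximalIdeal RR).height ≤ 2 := by
  classical
  have h : IsLocalRing.maximalIdeal RR ∈
      (Ideal.span (({y0 + xx, y1} : Finset RR) : Set RR)).minimalPrimes := by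
    constructor
    · refine ⟨inferInstance, ?_⟩
      rw [Ideal.span_le, max_eq]
      intro z hz
      simp only [Finset.coe_insert, Finset.coe_singleton, Set.mem_insert_iff,
        Set.mem_singleton_iff] at hz
      rcases hz with rfl | rfl
      · exact add_mem y0_mem xx_mem
      · exact y1_mem
    · rintro q ⟨hq, hle⟩ -
      rw [Ideal.span_le] at hle
      have ha : y0 + xx ∈ q := hle (by simp)
      have hb : y1 ∈ q := hle (by simp)
      have hc : y0 * y0 ∈ q := by
        have := q.mul_mem_left y0 ha
        rwa [mul_add, y0xx, add_zero] at this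
      have hd : y0 ∈ q := by
        rcases hq.mem_or_mem hc with h | h <;> exact h
      have he : xx ∈ q := by
        have := q.sub_mem ha hd
        rwa [add_sub_cancel_left] at this
      rw [max_eq]
      intro x hx
      obtain ⟨a, b, c, -, -, -, rfl⟩ := dec (n := 0) hx
      exact add_mem (add_mem (q.mul_mem_right _ hd) (q.mul_mem_right _ hb)) (q.mul_mem_right _ he)
  refine le_trans (Ideal.height_le_card_of_mem_minimalPrimes_span_finset h) ?_
  have : (({y0 + xx, y1} : Finset RR)).card ≤ 2 := Finset.card_le_two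
  exact_mod_cast this

/-- weights -/
def ww : Fin 2 → ℕ := ![1, 0]

theorem wo_monomial (i : Fin 2) : (X i : PA).weightedOrder ww = (ww i : ℕ∞) := by
  have h := MvPowerSeries.weightedOrder_monomial_of_ne_zero (w := ww) (d := Finsupp.single i 1)
    (one_ne_zero (α := ℚ))
  have h' : Finsupp.weight ww (Finsupp.single i 1) = ww i := by
    rw [Finsupp.weight_single, one_smul]
  rw [h'] at h
  exact h

/-- middle prime -/
noncomputable def P1 : Ideal RR where
  carrier := {x | 1 ≤ (pA x).weightedOrder ww}
  add_mem' := by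
    intro a b ha hb
    change 1 ≤ (pA (a + b)).weightedOrder ww
    rw [map_add]
    exact le_trans (le_min ha hb) (MvPowerSeries.min_weightedOrder_le_add _)
  zero_mem' := by
    change 1 ≤ (pA 0).weightedOrder ww
    rw [map_zero, MvPowerSeries.weightedOrder_zero]
    exact le_top
  smul_mem' := by
    intro c x hx
    change 1 ≤ (pA (c * x)).weightedOrder ww
    rw [map_mul, MvPowerSeries.weightedOrder_mul]
    exact le_trans hx le_add_self

theorem mem_P1 {x : RR} : x ∈ P1 ↔ 1 ≤ (pA x).weightedOrder ww := Iff.rfl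

instance : P1.IsPrime := by
  constructor
  · intro h
    have h1 : (1 : RR) ∈ P1 := by rw [h]; trivial
    rw [mem_P1, map_one, MvPowerSeries.weightedOrder_one] at h1
    simp at h1
  · intro x y hxy
    rw [mem_P1, map_mul, MvPowerSeries.weightedOrder_mul] at hxy
    rw [mem_P1, mem_P1]
    by_contra h
    push Not at h
    obtain ⟨h1, h2⟩ := h
    rw [Order.lt_one_iff] at h1 h2
    rw [h1, h2] at hxy
    simp at hxy

/-- bottom prime -/
noncomputable def P0 : Ideal RR := RingHom.ker pA

instance : P0.IsPrime := by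
  have : IsDomain PA := NoZeroDivisors.to_isDomain PA
  exact RingHom.ker_isPrime pA

theorem P0_lt_P1 : P0 < P1 := by
  rw [SetLike.lt_iff_le_and_exists]
  refine ⟨?_, y0, ?_, ?_⟩
  · intro x hx
    rw [P0, RingHom.mem_ker] at hx
    rw [mem_P1, hx, MvPowerSeries.weightedOrder_zero]
    exact le_top
  · rw [mem_P1]
    change 1 ≤ (X 0 : PA).weightedOrder ww
    rw [wo_monomial]
    simp [ww]
  · intro h
    rw [P0, RingHom.mem_ker] at h
    change (X 0 : PA) = 0 at h
    have h' := congrArg MvPowerSeries.order h
    rw [order_X', MvPowerSeries.order_zero] at h'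
    simp at h'

theorem P1_lt_max : P1 < IsLocalRing.maximalIdeal RR := by
  rw [SetLike.lt_iff_le_and_exists]
  refine ⟨IsLocalRing.le_maximalIdeal (Ideal.IsPrime.ne_top inferInstance), y1, ?_, ?_⟩
  · rw [max_eq]
    exact y1_mem
  · rw [mem_P1]
    change ¬ 1 ≤ (X 1 : PA).weightedOrder ww
    rw [wo_monomial]
    simp [ww]

theorem dim_eq : ringKrullDim RR = ((2 : ℕ) : WithBot ℕ∞) := by
  rw [← IsLocalRing.maximalIdeal_height_eq_ringKrullDim]
  have h1 := Ideal.height_add_one_le_of_lt_of_isPrime P0_lt_P1
  have h2 := Ideal.height_add_one_le_of_lt_of_isPrime P1_lt_max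
  have h3 : (2 : ℕ∞) ≤ (IsLocalRing.maximalIdeal RR).height := by
    refine le_trans ?_ h2
    have : (1 : ℕ∞) ≤ P1.height := le_trans le_add_self h1
    calc (2 : ℕ∞) = 1 + 1 := by norm_num
      _ ≤ _ := by gcongr
  have h4 : (IsLocalRing.maximalIdeal RR).height = 2 := le_antisymm height_le_two h3
  rw [h4]
  rfl

end Pool.Agent.X272.VC
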