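import Mathlib
import Pool.Agent.X272.VC.Filt

set_option autoImplicit false

namespace Pool.Agent.X272.VC

open MvPowerSeries

theorem coeff_mul_of_order {σ : Type} (r s : MvPowerSeries σ ℚ) {n : ℕ}
    (hs : (n : ℕ∞) ≤ s.order) (e : σ →₀ ℕ) (he : e.degree = n) :
    coeff e (r * s) = constantCoeff r * coeff e s := by
  classical
  rw [MvPowerSeries.coeff_mul, Finset.sum_eq_single ((0 : σ →₀ ℕ), e)]
  · rfl
  · intro p hp hne
    rw [Finset.HasAntidiagonal.mem_antidiagonal] at hp
    have h0 : p.1 ≠ 0 := by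
      intro h
      apply hne
      rw [h, zero_add] at hp
      exact Prod.ext h hp
    have hd : p.1.degree + p.2.degree = n := by
      rw [← he, ← hp, map_add]
    have h1 : p.1.degree ≠ 0 := by
      rwa [Ne, Finsupp.degree_eq_zero_iff]
    rw [MvPowerSeries.coeff_of_lt_order (lt_of_lt_of_le _ hs), mul_zero]
    rw [Nat.cast_lt]
    omega
  · intro h
    exact absurd (Finset.HasAntidiagonal.mem_antidiagonal.2 (zero_add e)) h

/-- exponents of degree `n` in two variables -/
abbrev D (n : ℕ) : Type := {e : Fin 2 →₀ ℕ // e.degree = n}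

theorem degree2 (e : Fin 2 →₀ ℕ) : e.degree = e 0 + e 1 := by
  rw [Finsupp.degree_eq_sum, Fin.sum_univ_two]

/-- numbering of exponents of degree `n` -/
noncomputable def eD (n : ℕ) : D n ≃ Fin (n + 1) where
  toFun e := ⟨e.1 0, by
    have := e.2
    rw [degree2] at this
    omega⟩
  invFun i := ⟨Finsupp.equivFunOnFinite.symm ![i.1, n - i.1], by
    rw [degree2]
    have := i.2
    simp
    omega⟩
  left_inv := by
    intro e
    apply Subtype.ext
    have := e.2
    rw [degree2] at this
    ext i
    fin_cases i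
    · rfl
    · change n - e.1 0 = e.1 1
      omega
  right_inv := by
    intro i
    apply Fin.ext
    rfl

noncomputable instance (n : ℕ) : Fintype (D n) := Fintype.ofEquiv _ (eD n).symm

theorem card_D (n : ℕ) : Fintype.card (D n) = n + 1 := by
  rw [Fintype.card_congr (eD n), Fintype.card_fin]

noncomputable instance algQ : Algebra RR ℚ := eps.toAlgebra

theorem algQ_smul (r : RR) (c : ℚ) : r • c = eps r * c := rfl

theorem length_Q : Module.length RR ℚ = 1 := by
  rw [Module.length_eq_of_surjective (R := ℚ) (S := RR) (M := ℚ) eps_surj]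
  exact Module.length_eq_one ℚ ℚ

/-- graded piece -/
abbrev W (n : ℕ) : Type := (D n → ℚ) × ℚ

theorem length_W (n : ℕ) : Module.length RR (W n) = ((n + 2 : ℕ) : ℕ∞) := by
  rw [Module.length_prod, Module.length_pi_of_fintype, length_Q, Finset.sum_const,
    Finset.card_univ, card_D]
  simp
  norm_cast

/-- leading coefficients -/
noncomputable def cf (n : ℕ) (x : RR) : W n :=
  (fun e => coeff e.1 (pA x), coeff (Finsupp.single () n) (pB x))

theorem cf_add (n : ℕ) (x y : RR) : cf n (x + y) = cf n x + cf n y := by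
  unfold cf
  rw [map_add, map_add]
  ext
  · simp
  · simp

theorem cf_sub (n : ℕ) (x y : RR) : cf n (x - y) = cf n x - cf n y := by
  unfold cf
  rw [map_sub, map_sub]
  ext
  · simp
  · simp

theorem cf_mul {n : ℕ} (r : RR) {x : RR} (hx : x ∈ F n) : cf n (r * x) = r • cf n x := by
  unfold cf
  rw [map_mul, map_mul, coeff_mul_of_order (pB r) (pB x) hx.2 _ (Finsupp.degree_single () n),
    ← eps_apply']
  ext e
  · change coeff e.1 (pA r * pA x) = eps r * _
    rw [coeff_mul_of_order (pA r) (pA x) hx.1 _ e.2]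
    rfl
  · rfl

theorem mem_F_succ {n : ℕ} {x : RR} : x ∈ F (n + 1) ↔ x ∈ F n ∧ cf n x = 0 := by
  constructor
  · intro h
    refine ⟨F_anti (Nat.le_succ n) h, ?_⟩
    rw [mem_F] at h
    unfold cf
    ext e
    · change coeff e.1 (pA x) = 0
      apply MvPowerSeries.coeff_of_lt_order
      refine lt_of_lt_of_le ?_ h.1
      rw [e.2, Nat.cast_lt]
      exact Nat.lt_succ_self n
    · change coeff (Finsupp.single () n) (pB x) = 0
      apply MvPowerSeries.coeff_of_lt_order
      refine lt_of_lt_of_le ?_ h.2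
      rw [Finsupp.degree_single, Nat.cast_lt]
      exact Nat.lt_succ_self n
  · rintro ⟨h, hc⟩
    rw [mem_F] at h ⊢
    have h1 : ∀ e : D n, coeff e.1 (pA x) = 0 := fun e => congrFun (congrArg Prod.fst hc) e
    have h2 : coeff (Finsupp.single () n) (pB x) = 0 := congrArg Prod.snd hc
    refine ⟨?_, ?_⟩
    · apply MvPowerSeries.nat_le_order
      intro d hd
      rcases Nat.lt_or_eq_of_le (Nat.lt_succ_iff.1 hd) with hd | hd
      · apply MvPowerSeries.coeff_of_lt_order
        refine lt_of_lt_of_le ?_ h.1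
        rwa [Nat.cast_lt]
      · exact h1 ⟨d, hd⟩
    · apply MvPowerSeries.nat_le_order
      intro d hd
      rcases Nat.lt_or_eq_of_le (Nat.lt_succ_iff.1 hd) with hd | hd
      · apply MvPowerSeries.coeff_of_lt_order
        refine lt_of_lt_of_le ?_ h.2
        rwa [Nat.cast_lt]
      · have : d = Finsupp.single () n := by
          have h3 : d = Finsupp.single () (d ()) := Finsupp.unique_single d
          rw [h3] at hd ⊢
          rw [Finsupp.degree_single] at hd
          rw [hd]
        rw [this]
        exact h2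

/-- homogeneous form with given coefficients -/
noncomputable def secA (n : ℕ) (w : D n → ℚ) : PA :=
  fun e => if h : e.degree = n then w ⟨e, h⟩ else 0

theorem coeff_secA (n : ℕ) (w : D n → ℚ) (e : Fin 2 →₀ ℕ) :
    coeff e (secA n w) = if h : e.degree = n then w ⟨e, h⟩ else 0 := rfl

/-- section of the leading coefficient map -/
noncomputable def sec (n : ℕ) (w : W (n + 1)) : RR :=
  mk' (secA (n + 1) w.1)
    (MvPowerSeries.monomial (Finsupp.single () (n + 1)) w.2) (by
      rw [← MvPowerSeries.coeff_zero_eq_constantCoeff_apply,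
        ← MvPowerSeries.coeff_zero_eq_constantCoeff_apply]
      rw [MvPowerSeries.coeff_monomial_ne]
      · rw [coeff_secA, dif_neg]
        simp
      · intro h
        have := congrArg (fun f => f ()) h
        simp at this)

theorem sec_mem (n : ℕ) (w : W (n + 1)) : sec n w ∈ F (n + 1) := by
  rw [mem_F]
  refine ⟨?_, ?_⟩
  · apply MvPowerSeries.nat_le_order
    intro d hd
    change coeff d (secA _ _) = 0
    rw [coeff_secA, dif_neg (by omega)]
  · apply MvPowerSeries.nat_le_order
    intro d hd
    change coeff d (MvPowerSeries.monomial _ _) = 0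
    rw [MvPowerSeries.coeff_monomial_ne]
    rintro rfl
    rw [Finsupp.degree_single] at hd
    omega

theorem cf_sec (n : ℕ) (w : W (n + 1)) : cf (n + 1) (sec n w) = w := by
  unfold cf
  ext e
  · change coeff e.1 (secA _ _) = _
    rw [coeff_secA, dif_pos e.2]
  · change coeff _ (MvPowerSeries.monomial _ _) = _
    rw [MvPowerSeries.coeff_monomial_same]

theorem mk_eq_of {n : ℕ} {x y : RR} (hx : x ∈ F n) (hy : y ∈ F n) (h : cf n x = cf n y) :
    (Submodule.Quotient.mk x : RR ⧸ F (n + 1)) = Submodule.Quotient.mk y := by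
  rw [Submodule.Quotient.eq, mem_F_succ, cf_sub, h, sub_self]
  exact ⟨sub_mem hx hy, rfl⟩

/-- inclusion of the graded piece -/
noncomputable def inc (n : ℕ) : W (n + 1) →ₗ[RR] RR ⧸ F (n + 2) where
  toFun w := Submodule.Quotient.mk (sec n w)
  map_add' v w := by
    rw [← Submodule.Quotient.mk_add]
    apply mk_eq_of (sec_mem n _) (add_mem (sec_mem n _) (sec_mem n _))
    rw [cf_add, cf_sec, cf_sec, cf_sec]
  map_smul' r w := by
    rw [RingHom.id_apply, ← Submodule.Quotient.mk_smul]
    apply mk_eq_of (sec_mem n _) (Ideal.mul_mem_left _ _ (sec_mem n _))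
    rw [cf_mul _ (sec_mem n _), cf_sec, cf_sec]

theorem length_succ (n : ℕ) : Module.length RR (RR ⧸ F (n + 2)) =
    ((n + 3 : ℕ) : ℕ∞) + Module.length RR (RR ⧸ F (n + 1)) := by
  rw [← length_W (n + 1)]
  refine Module.length_eq_add_of_exact (inc n)
    (Submodule.mapQ (F (n + 2)) (F (n + 1)) LinearMap.id (F_anti (Nat.le_succ _))) ?_ ?_ ?_
  · rw [← LinearMap.ker_eq_bot, LinearMap.ker_eq_bot']
    intro w hw
    change (Submodule.Quotient.mk (sec n w) : RR ⧸ F (n + 2)) = 0 at hw
    rw [Submodule.Quotient.mk_eq_zero, mem_F_succ, cf_sec] at hw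
    exact hw.2
  · intro y
    obtain ⟨x, rfl⟩ := Submodule.Quotient.mk_surjective _ y
    exact ⟨Submodule.Quotient.mk x, rfl⟩
  · intro y
    obtain ⟨x, rfl⟩ := Submodule.Quotient.mk_surjective _ y
    change (Submodule.Quotient.mk x : RR ⧸ F (n + 1)) = 0 ↔ _
    rw [Submodule.Quotient.mk_eq_zero]
    constructor
    · intro hx
      refine ⟨cf (n + 1) x, ?_⟩
      exact mk_eq_of (sec_mem n _) hx (cf_sec n _)
    · rintro ⟨w, hw⟩
      change (Submodule.Quotient.mk (sec n w) : RR ⧸ F (n + 2)) = _ at hw
      rw [Submodule.Quotient.eq] at hw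
      have h1 := F_anti (Nat.le_succ (n + 1)) hw
      have h2 := sub_mem (sec_mem n w) h1
      rwa [sub_sub_cancel] at h2

theorem length_one : Module.length RR (RR ⧸ F 1) = 1 := by
  rw [Module.length_eq_one_iff, ← max_eq]
  have := IsLocalRing.maximalIdeal.isMaximal RR
  rw [Ideal.isMaximal_def] at this
  exact isSimpleModule_iff_isCoatom.2 this

theorem length_F (n : ℕ) : Module.length RR (RR ⧸ F (n + 1)) =
    (((n + 2).choose 2 + n : ℕ) : ℕ∞) := by
  induction n with
  | zero => rw [length_one]; rfl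
  | succ n ih =>
    rw [length_succ, ih, ← Nat.cast_add, Nat.cast_inj]
    have : (n + 1 + 2).choose 2 = (n + 2).choose 1 + (n + 2).choose 2 := rfl
    rw [this, Nat.choose_one_right]
    omega

end Pool.Agent.X272.VC
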